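import Pool.Agent.Y341.JP.Graph
import Pool.Agent.Y341.JP.Exact
import Pool.Agent.Results.MP_f151b7_co.StarAllK

/-!
# Partitions into `k` classes each meeting many edges: the exact value for many edges
-/

set_option autoImplicit false

namespace Pool.Agent.Results.MP_f151b7_co.ExactForManyEdges

open Finset Pool.Agent.Y341.JP

/-- Every finite simple graph with `m` edges has a partition of its vertex set into `k` (possibly
empty) classes such that every class meets at least `t` edges. -/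
def Good (k m t : ℕ) : Prop :=
  ∀ (V : Type) [Fintype V] (G : SimpleGraph V), G.edgeSet.ncard = m →
    ∃ c : V → Fin k, ∀ i, t ≤ {e ∈ G.edgeSet | ∃ v ∈ e, c v = i}.ncard

theorem numeric {k m : ℕ} (hk : 3 ≤ k) (hm : (50 * k) ^ 16 ≤ m) :
    (0 : ℝ) < m ∧ 55296 * (k : ℝ) * ((k : ℝ) - 1) ^ 3 ≤
      (1 / (20736 * ((k : ℝ) - 1) ^ 2)) ^ 2 * Real.sqrt (2 * m) := by
  have hk' : (3 : ℝ) ≤ k := by exact_mod_cast hk
  have hm' : ((50 * (k : ℝ)) ^ 8) ^ 2 ≤ m := by
    have : ((50 * (k : ℝ)) ^ 8) ^ 2 = (((50 * k) ^ 16 : ℕ) : ℝ) := by push_cast; ring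
    rw [this]
    exact_mod_cast hm
  have hmpos : (0 : ℝ) < m := lt_of_lt_of_le (by positivity) hm'
  have hr : (50 * (k : ℝ)) ^ 8 ≤ Real.sqrt (2 * m) :=
    Real.le_sqrt_of_sq_le (hm'.trans (by linarith))
  refine ⟨hmpos, ?_⟩
  have hκ : (0 : ℝ) < (k : ℝ) - 1 := by linarith
  rw [div_pow, one_pow, one_div_mul_eq_div, le_div_iff₀ (by positivity)]
  have e : 55296 * (k : ℝ) * ((k : ℝ) - 1) ^ 3 * (20736 * ((k : ℝ) - 1) ^ 2) ^ 2 =
      23776267862016 * ((k : ℝ) * ((k : ℝ) - 1) ^ 7) := by ring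
  rw [e]
  have h3 : ((k : ℝ) - 1) ^ 7 ≤ (k : ℝ) ^ 7 := pow_le_pow_left₀ hκ.le (by linarith) 7
  have h4 : (k : ℝ) * ((k : ℝ) - 1) ^ 7 ≤ (k : ℝ) ^ 8 := by
    calc (k : ℝ) * ((k : ℝ) - 1) ^ 7 ≤ (k : ℝ) * (k : ℝ) ^ 7 :=
          mul_le_mul_of_nonneg_left h3 (by linarith)
      _ = (k : ℝ) ^ 8 := by ring
  have h5 : (50 * (k : ℝ)) ^ 8 = 39062500000000 * (k : ℝ) ^ 8 := by ring
  have h6 : 0 ≤ (k : ℝ) ^ 8 := by positivity
  rw [h5] at hr
  linarith

theorem sum_adj_one {V : Type} [Fintype V] (G : SimpleGraph V) (x : V) :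
    ∑ v, adj G x v = ((G.neighborSet x).ncard : ℝ) := by
  classical
  unfold adj
  rw [Finset.sum_boole, Set.ncard_eq_toFinset_card']
  congr 2
  ext v
  simp

/-- without a dominating star there is room to spare -/
theorem stability {k : ℕ} (hk : 3 ≤ k) (V : Type) [Fintype V] (G : SimpleGraph V)
    (hm : (50 * k) ^ 16 ≤ G.edgeSet.ncard)
    (hd : ∀ x, ((G.neighborSet x).ncard : ℝ) ≤
      (1 - 1 / (3 * ((k : ℝ) - 1))) * (G.edgeSet.ncard : ℝ)) :
    ∃ c : V → Fin k, ∀ i, (1 + 1 / (82944 * ((k : ℝ) - 1) ^ 2)) *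
      ((G.edgeSet.ncard : ℝ) / ((k : ℝ) - 1)) ≤
        ({e ∈ G.edgeSet | ∃ v ∈ e, c v = i}.ncard : ℝ) := by
  classical
  have hk' : (3 : ℝ) ≤ k := by exact_mod_cast hk
  have hκ : (0 : ℝ) < (k : ℝ) - 1 := by linarith
  obtain ⟨hmpos, hnum⟩ := numeric hk hm
  set m : ℝ := (G.edgeSet.ncard : ℝ) with hmd
  have hD : ∑ u, ∑ v, adj G u v = 2 * m := sum_adj G
  obtain ⟨c, hc⟩ := nonstar_core (a := adj G) (k := k)
    (fun u v => by unfold adj; by_cases h : G.Adj u v <;> simp [h])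
    (fun u => by unfold adj; simp)
    (fun u v => by unfold adj; simp [G.adj_comm u v]) hk
    (r := Real.sqrt (2 * m)) (Real.sqrt_pos.2 (by linarith))
    (by rw [hD, Real.sq_sqrt (by linarith)]) hnum (fun x => by
      rw [hD, sum_adj_one]
      have h1 := hd x
      have h2 : 3 * (2 * m - 2 * ((1 - 1 / (3 * ((k : ℝ) - 1))) * m)) * ((k : ℝ) - 1) =
          2 * m := by
        field_simp
        ring
      have h3 : 3 * (2 * m - 2 * ((1 - 1 / (3 * ((k : ℝ) - 1))) * m)) * ((k : ℝ) - 1) ≤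
          3 * (2 * m - 2 * ((G.neighborSet x).ncard : ℝ)) * ((k : ℝ) - 1) :=
        mul_le_mul_of_nonneg_right (by linarith) hκ.le
      linarith)
  refine ⟨c, fun i => ?_⟩
  have h := hc i
  rw [M_adj, hD] at h
  have h4 : ((k : ℝ) - 1) * ((1 + 1 / (82944 * ((k : ℝ) - 1) ^ 2)) * (m / ((k : ℝ) - 1))) ≤
      ((k : ℝ) - 1) * ({e ∈ G.edgeSet | ∃ v ∈ e, c v = i}.ncard : ℝ) := by
    have e : ((k : ℝ) - 1) * ((1 + 1 / (82944 * ((k : ℝ) - 1) ^ 2)) * (m / ((k : ℝ) - 1))) =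
        (1 + 1 / (20736 * ((k : ℝ) - 1) ^ 2) / 4) * m := by
      field_simp
      ring
    rw [e]
    linarith
  exact le_of_mul_le_mul_left h4 hκ

theorem good_exact {k m : ℕ} (hk : 3 ≤ k) (hm : (50 * k) ^ 16 ≤ m) : Good k m (m / (k - 1)) := by
  classical
  intro V _ G hG
  have hk' : (3 : ℝ) ≤ k := by exact_mod_cast hk
  have hD : ∑ u, ∑ v, adj G u v = 2 * (m : ℝ) := by rw [sum_adj, hG]
  have hk1 : ((k - 1 : ℕ) : ℝ) = (k : ℝ) - 1 := by rw [Nat.cast_sub (by omega)]; simp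
  obtain ⟨hmpos, hnum⟩ := numeric hk hm
  obtain ⟨c, hc⟩ := exact_core (a := adj G) (k := k)
    (fun u v => by unfold adj; by_cases h : G.Adj u v <;> simp [h])
    (fun u => by unfold adj; simp)
    (fun u v => by unfold adj; simp [G.adj_comm u v]) hk (m / (k - 1))
    (by
      rw [hD]
      have h1 : m / (k - 1) * (k - 1) ≤ m := Nat.div_mul_le_self _ _
      have h2 : ((m / (k - 1) : ℕ) : ℝ) * ((k : ℝ) - 1) ≤ m := by
        rw [← hk1]; exact_mod_cast h1
      linarith)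
    (r := Real.sqrt (2 * m)) (Real.sqrt_pos.2 (by linarith))
    (by rw [hD, Real.sq_sqrt (by linarith)]) hnum
  refine ⟨c, fun i => ?_⟩
  have h := hc i
  rw [M_adj] at h
  have h' : ((m / (k - 1) : ℕ) : ℝ) ≤ ({e ∈ G.edgeSet | ∃ v ∈ e, c v = i}.ncard : ℝ) := by
    linarith
  exact_mod_cast h'

theorem good_upper {k m t : ℕ} (hk : 3 ≤ k) (h : Good k m t) : t ≤ m / (k - 1) := by
  classical
  obtain ⟨c, hc⟩ := h (Fin (m + 1)) (StarAllK.star m) (StarAllK.star_card m)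
  rw [Nat.le_div_iff_mul_le (by omega)]
  have h1 : ∀ i ∈ univ.erase (c 0), t ≤ (univ.filter (fun v : Fin m => c v.succ = i)).card := by
    intro i hi
    have h2 := hc i
    rwa [StarAllK.meets_card m k c i (mem_erase.1 hi).1] at h2
  have h3 := Finset.sum_le_sum h1
  have h4 : ∑ i ∈ univ.erase (c 0), (univ.filter (fun v : Fin m => c v.succ = i)).card ≤ m := by
    calc ∑ i ∈ univ.erase (c 0), (univ.filter (fun v : Fin m => c v.succ = i)).card
        ≤ ∑ i : Fin k, (univ.filter (fun v : Fin m => c v.succ = i)).card :=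
          Finset.sum_le_sum_of_subset (erase_subset _ _)
      _ = (univ : Finset (Fin m)).card :=
          (Finset.card_eq_sum_card_fiberwise (fun _ _ => mem_univ _)).symm
      _ = m := by rw [card_univ, Fintype.card_fin]
  rw [sum_const, card_erase_of_mem (mem_univ _), card_univ, Fintype.card_fin, smul_eq_mul] at h3
  rw [mul_comm]
  exact h3.trans h4

theorem lower_all {k : ℕ} (hk : 3 ≤ k) (V : Type) [Fintype V] (G : SimpleGraph V) :
    ∃ c : V → Fin k, ∀ i, (G.edgeSet.ncard : ℝ) / ((k : ℝ) - 1) -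
      3 * (G.edgeSet.ncard : ℝ) ^ (2 / 3 : ℝ) ≤
        ({e ∈ G.edgeSet | ∃ v ∈ e, c v = i}.ncard : ℝ) := by
  classical
  have hk' : (3 : ℝ) ≤ k := by exact_mod_cast hk
  rcases Nat.eq_zero_or_pos G.edgeSet.ncard with h0 | hpos
  · refine ⟨fun _ => ⟨0, by omega⟩, fun i => ?_⟩
    rw [h0]
    rw [Nat.cast_zero, Real.zero_rpow (by norm_num)]
    simp
  · set m : ℝ := (G.edgeSet.ncard : ℝ) with hm
    have hmpos : 0 < m := by rw [hm]; exact_mod_cast hpos
    set x : ℝ := m ^ (1 / 3 : ℝ) with hx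
    have hx0 : 0 < x := Real.rpow_pos_of_pos hmpos _
    have hx3 : x ^ 3 = m := by
      rw [hx, ← Real.rpow_natCast, ← Real.rpow_mul hmpos.le]
      norm_num
    have hx2 : m ^ (2 / 3 : ℝ) = x ^ 2 := by
      rw [hx, ← Real.rpow_natCast, ← Real.rpow_mul hmpos.le]
      norm_num
    have hκ : (0 : ℝ) < (k : ℝ) - 1 := by linarith
    refine graph_core G hk (δ := x ^ 2) (by positivity) ?_
    rw [← hm, hx2, ← hx3]
    have e : (2 * x ^ 3 / x ^ 2) ^ 2 +
        ((k : ℝ) - 1) * (2 * (x ^ 3 / ((k : ℝ) - 1) - 3 * x ^ 2) + 4 * x ^ 2) =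
        2 * x ^ 3 - 2 * ((k : ℝ) - 3) * x ^ 2 := by
      field_simp
      ring
    rw [e]
    have : 0 ≤ 2 * ((k : ℝ) - 3) * x ^ 2 :=
      mul_nonneg (mul_nonneg (by norm_num) (by linarith)) (by positivity)
    linarith

theorem complete_card (k : ℕ) (hk : 3 ≤ k) :
    (⊤ : SimpleGraph (Fin (2 * k - 1))).edgeSet.ncard = (2 * k - 1) * (k - 1) := by
  classical
  have h3 : (⊤ : SimpleGraph (Fin (2 * k - 1))).edgeSet.ncard =
      (⊤ : SimpleGraph (Fin (2 * k - 1))).edgeFinset.card := by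
    rw [Set.ncard_eq_toFinset_card']
    rfl
  rw [h3, SimpleGraph.card_edgeFinset_top_eq_card_choose_two, Fintype.card_fin,
    Nat.choose_two_right]
  obtain ⟨j, rfl⟩ : ∃ j, k = j + 1 := ⟨k - 1, by omega⟩
  have h1 : 2 * (j + 1) - 1 = 2 * j + 1 := by omega
  have h2 : 2 * j + 1 - 1 = 2 * j := by omega
  have h4 : j + 1 - 1 = j := by omega
  rw [h1, h2, h4]
  have h5 : (2 * j + 1) * (2 * j) = 2 * ((2 * j + 1) * j) := by ring
  rw [h5, Nat.mul_div_cancel_left _ (by norm_num)]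

theorem complete_bad {k : ℕ} (hk : 3 ≤ k) : ¬ Good k ((2 * k - 1) * (k - 1)) (2 * k - 1) := by
  classical
  intro h
  obtain ⟨c, hc⟩ := h (Fin (2 * k - 1)) ⊤ (complete_card k hk)
  have hex : ∃ i : Fin k, (univ.filter (fun v => c v = i)).card ≤ 1 := by
    by_contra hcon
    push Not at hcon
    have h1 : ∑ i : Fin k, 2 ≤ ∑ i : Fin k, (univ.filter (fun v => c v = i)).card :=
      sum_le_sum fun i _ => hcon i
    have h2 : ∑ i : Fin k, (univ.filter (fun v => c v = i)).card =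
        (univ : Finset (Fin (2 * k - 1))).card :=
      (Finset.card_eq_sum_card_fiberwise (fun _ _ => mem_univ _)).symm
    rw [h2, card_univ, Fintype.card_fin, sum_const, card_univ, Fintype.card_fin,
      smul_eq_mul] at h1
    omega
  obtain ⟨i, hi⟩ := hex
  have h3 := hc i
  have : Nonempty (Fin (2 * k - 1)) := ⟨⟨0, by omega⟩⟩
  rw [card_le_one_iff_subset_singleton] at hi
  obtain ⟨w, hw⟩ := hi
  have h4 : {e ∈ (⊤ : SimpleGraph (Fin (2 * k - 1))).edgeSet | ∃ v ∈ e, c v = i} ⊆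
      ((univ.erase w).image (fun u => s(w, u)) : Finset (Sym2 (Fin (2 * k - 1)))) := by
    rintro e ⟨he, v, hv, hcv⟩
    have h5 : v = w := by
      have : v ∈ ({w} : Finset (Fin (2 * k - 1))) := hw (by simp [hcv])
      simpa using this
    subst h5
    obtain ⟨u, rfl⟩ := hv
    rw [SimpleGraph.mem_edgeSet, SimpleGraph.top_adj] at he
    rw [mem_coe, mem_image]
    exact ⟨u, mem_erase.2 ⟨he.symm, mem_univ _⟩, rfl⟩
  have h6 := Set.ncard_le_ncard h4 (finite_toSet _)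
  rw [Set.ncard_coe_finset] at h6
  have h7 : ((univ.erase w).image (fun u => s(w, u))).card ≤ (univ.erase w).card :=
    card_image_le
  rw [card_erase_of_mem (mem_univ _), card_univ, Fintype.card_fin] at h7
  omega

/-- For every `k ≥ 3`:

* for every `m ≥ (50 k)^16` the largest `t` such that every graph with `m` edges has a partition
  into `k` classes each meeting at least `t` edges is exactly `⌊m / (k - 1)⌋`;
* for `m ≥ (50 k)^16` every graph with `m` edges and all degrees at most `(1 - 1/(3(k-1))) m` has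
  a partition into `k` classes each meeting at least `(1 + 1/(82944 (k-1)^2)) m / (k - 1)` edges;
* for every `m` no `t` larger than `⌊m / (k - 1)⌋` has the property of the first item;
* every graph with `m` edges has a partition into `k` classes each meeting at least
  `m / (k - 1) - 3 m^(2/3)` edges;
* for `m = (2 k - 1) (k - 1)` the value `⌊m / (k - 1)⌋ = 2 k - 1` does not have this property;
* for `m = 2 k (k - 3) + 3 ≥ k (k - 1) / 2` there is a graph with `m` edges all of whose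
  partitions into `k` classes have a class meeting fewer than `2 m / (2 k - 1)` edges. -/
theorem result : ∀ k : ℕ, 3 ≤ k →
    (∀ m : ℕ, (50 * k) ^ 16 ≤ m → IsGreatest {t : ℕ | Good k m t} (m / (k - 1))) ∧
    (∀ (V : Type) [Fintype V] (G : SimpleGraph V), (50 * k) ^ 16 ≤ G.edgeSet.ncard →
      (∀ x, ((G.neighborSet x).ncard : ℝ) ≤
        (1 - 1 / (3 * ((k : ℝ) - 1))) * (G.edgeSet.ncard : ℝ)) →
      ∃ c : V → Fin k, ∀ i, (1 + 1 / (82944 * ((k : ℝ) - 1) ^ 2)) *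
        ((G.edgeSet.ncard : ℝ) / ((k : ℝ) - 1)) ≤
          ({e ∈ G.edgeSet | ∃ v ∈ e, c v = i}.ncard : ℝ)) ∧
    (∀ m t : ℕ, Good k m t → t ≤ m / (k - 1)) ∧
    (∀ (V : Type) [Fintype V] (G : SimpleGraph V), ∃ c : V → Fin k, ∀ i,
      (G.edgeSet.ncard : ℝ) / ((k : ℝ) - 1) - 3 * (G.edgeSet.ncard : ℝ) ^ (2 / 3 : ℝ) ≤
        ({e ∈ G.edgeSet | ∃ v ∈ e, c v = i}.ncard : ℝ)) ∧
    ¬ Good k ((2 * k - 1) * (k - 1)) (2 * k - 1) ∧
    (∃ (n : ℕ) (G : SimpleGraph (Fin n)), k.choose 2 ≤ G.edgeSet.ncard ∧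
      G.edgeSet.ncard = 2 * k * (k - 3) + 3 ∧
      ∀ c : Fin n → Fin k, ∃ i : Fin k,
        ({e ∈ G.edgeSet | ∃ v ∈ e, c v = i}.ncard : ℚ)
          < 2 * (G.edgeSet.ncard : ℚ) / (2 * (k : ℚ) - 1)) := by
  intro k hk
  exact ⟨fun m hm => ⟨good_exact hk hm, fun t ht => good_upper hk ht⟩,
    fun V _ G hm hd => stability hk V G hm hd,
    fun m t ht => good_upper hk ht, fun V _ G => lower_all hk V G, complete_bad hk,
    StarAllK.result k hk⟩

end Pool.Agent.Results.MP_f151b7_co.ExactForManyEdges
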