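import Pool.Agent.Y413.PM.FIN2
import Pool.Agent.Y448.PM.ID
import Pool.Agent.Y908.PM.CUT
import Pool.Agent.Y550.PM.SPLIT
import Pool.Agent.Y450.PM.STAR
import Pool.Agent.Y921.PM.PRIV

/-!
# MP_f151b7_co: the exact number of edges from which on the partition exists

For every `k ≥ 3` the largest number `m` of edges for which some graph with `m` edges has no
partition of its vertex set into `k` classes each meeting at least `2m/(2k-1)` edges is
`m = 2k(k-3) + 3 = 2k² - 6k + 3`.  For `2m > (2k-1)(k-3)` all graphs with `m` edges have such a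
partition if and only if `⌊m/(k-1)⌋ ≥ 2m/(2k-1)` (the condition for the star).  All graphs without
such a partition have a vertex of degree at least `2m/(2k-1)`.
-/

set_option autoImplicit false

open Y413.PM

namespace Pool.Agent.Results.MP_f151b7_co.ExactThreshold

/-- The number of edges of `G` that are met by the class `i` of the partition `c`. -/
noncomputable def meets {n k : ℕ} (G : SimpleGraph (Fin n)) (c : Fin n → Fin k) (i : Fin k) : ℕ :=
  {e ∈ G.edgeSet | ∃ v ∈ e, c v = i}.ncard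

/-- `G`, with `m` edges, has a partition of its vertex set into `k` (possibly empty) classes each of
which meets at least `2m/(2k-1)` edges. -/
def HasPartition {n : ℕ} (k : ℕ) (G : SimpleGraph (Fin n)) : Prop :=
  ∃ c : Fin n → Fin k, ∀ i : Fin k,
    2 * (G.edgeSet.ncard : ℚ) / (2 * (k : ℚ) - 1) ≤ (meets G c i : ℚ)

/-- `G`, with `m` edges, has a vertex of degree at least `2m/(2k-1)`. -/
def HasLargeVertex {n : ℕ} (k : ℕ) (G : SimpleGraph (Fin n)) : Prop :=
  ∃ v : Fin n, 2 * (G.edgeSet.ncard : ℚ) / (2 * (k : ℚ) - 1) ≤ ((G.neighborSet v).ncard : ℚ)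

open Classical in
/-- the edges as a finset -/
noncomputable def ed {n : ℕ} (G : SimpleGraph (Fin n)) : Finset (Sym2 (Fin n)) :=
  G.edgeSet.toFinset

theorem ed_card {n : ℕ} (G : SimpleGraph (Fin n)) : (ed G).card = G.edgeSet.ncard := by
  classical
  rw [ed, Set.ncard_eq_toFinset_card']

theorem ed_diag {n : ℕ} (G : SimpleGraph (Fin n)) : ∀ e ∈ ed G, ¬ e.IsDiag := by
  classical
  intro e he
  rw [ed, Set.mem_toFinset] at he
  exact SimpleGraph.not_isDiag_of_mem_edgeSet _ he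

theorem meets_eq {n k : ℕ} (G : SimpleGraph (Fin n)) (c : Fin n → Fin k) (i : Fin k) :
    meets G c i = M (ed G) (Finset.univ.filter fun v => c v = i) := by
  classical
  unfold meets M
  rw [← Set.ncard_coe_finset]
  congr 1
  ext e
  simp only [Set.mem_ofPred_eq, Finset.coe_filter, ed, Set.mem_toFinset, hit, Finset.mem_filter,
    Finset.mem_univ, true_and]
  constructor
  · rintro ⟨h1, v, h2, h3⟩
    exact ⟨h1, v, h3, h2⟩
  · rintro ⟨h1, v, h2, h3⟩
    exact ⟨h1, v, h3, h2⟩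

theorem deg_eq {n : ℕ} (G : SimpleGraph (Fin n)) (v : Fin n) :
    (G.neighborSet v).ncard = M (ed G) {v} := by
  classical
  unfold M
  have h : ((ed G).filter fun e => hit {v} e) =
      (G.neighborSet v).toFinset.image fun u => s(v, u) := by
    ext e
    rw [Finset.mem_filter, Finset.mem_image, ed, Set.mem_toFinset]
    constructor
    · rintro ⟨h1, w, hw, h2⟩
      rw [Finset.mem_singleton] at hw
      subst hw
      obtain ⟨u, rfl⟩ := h2
      exact ⟨u, by rw [Set.mem_toFinset]; exact h1, rfl⟩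
    · rintro ⟨u, hu, rfl⟩
      rw [Set.mem_toFinset] at hu
      exact ⟨hu, v, Finset.mem_singleton_self v, Sym2.mem_mk_left _ _⟩
  rw [h, Finset.card_image_of_injective, Set.ncard_eq_toFinset_card']
  intro a b hab
  exact Sym2.congr_right.mp hab

/-- the integer form of the bound -/
theorem thr (k m : ℕ) (hk : 1 ≤ k) : ∃ T : ℕ, (2 * k - 1) * T ≤ 2 * m + 2 * k - 2 ∧
    (∀ x : ℕ, 2 * (m : ℚ) / (2 * (k : ℚ) - 1) ≤ (x : ℚ) ↔ T ≤ x) := by
  refine ⟨(2 * m + 2 * k - 2) / (2 * k - 1), Nat.mul_div_le _ _, fun x => ?_⟩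
  have hk' : (0 : ℚ) < 2 * (k : ℚ) - 1 := by
    have : (1 : ℚ) ≤ k := by exact_mod_cast hk
    linarith
  rw [div_le_iff₀ hk', Nat.div_le_iff_le_mul_add_pred (by omega)]
  have h1 : (2 * (m : ℚ) ≤ x * (2 * (k : ℚ) - 1)) ↔ 2 * m ≤ x * (2 * k - 1) := by
    rw [← Nat.cast_le (α := ℚ)]
    push_cast [Nat.cast_sub (show 1 ≤ 2 * k by omega)]
    rfl
  rw [h1, mul_comm x]
  omega

theorem has_of_fine {n k T : ℕ} {G : SimpleGraph (Fin n)}
    (h2 : ∀ x : ℕ, 2 * (G.edgeSet.ncard : ℚ) / (2 * (k : ℚ) - 1) ≤ (x : ℚ) ↔ T ≤ x)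
    (h : Fine (ed G) k T) : HasPartition k G := by
  obtain ⟨c, hc⟩ := h
  refine ⟨c, fun i => ?_⟩
  rw [h2, meets_eq]
  exact hc i

theorem small {n k : ℕ} (hk : 3 ≤ k) (G : SimpleGraph (Fin n)) (h : ¬ HasLargeVertex k G) :
    HasPartition k G := by
  obtain ⟨T, h1, h2⟩ := thr k G.edgeSet.ncard (by omega)
  apply has_of_fine h2
  refine fine_small Y448.PM.t_ID Y908.PM.t_CUT Y550.PM.t_SPLIT Y450.PM.t_STAR Y921.PM.t_PRIV hk
    (ed_diag G) (by rw [ed_card]; exact h1) (fun v => Or.inl ?_)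
  by_contra hcon
  push Not at hcon
  rw [← deg_eq, ← h2] at hcon
  exact h ⟨v, hcon⟩

theorem big {n k : ℕ} (hk : 3 ≤ k) (G : SimpleGraph (Fin n)) (h : HasLargeVertex k G)
    (hm : 2 * k * (k - 3) + 4 ≤ G.edgeSet.ncard) : HasPartition k G := by
  obtain ⟨T, h1, h2⟩ := thr k G.edgeSet.ncard (by omega)
  apply has_of_fine h2
  obtain ⟨v, hv⟩ := h
  rw [h2, deg_eq] at hv
  refine fine_big Y448.PM.t_ID Y921.PM.t_PRIV hk (ed_diag G) (by rw [ed_card]; exact hm) ?_
    (by rw [ed_card]; exact h1) ⟨v, hv⟩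
  by_contra hcon
  have h0 : T = 0 := by omega
  subst h0
  have h3 := (h2 0).mpr le_rfl
  have hk' : (0 : ℚ) < 2 * (k : ℚ) - 1 := by
    have : (3 : ℚ) ≤ k := by exact_mod_cast hk
    linarith
  rw [div_le_iff₀ hk'] at h3
  have h4 : (4 : ℚ) ≤ G.edgeSet.ncard := by
    have : 4 ≤ G.edgeSet.ncard := by omega
    exact_mod_cast this
  push_cast at h3
  linarith

theorem big2 {n k : ℕ} (hk : 3 ≤ k) (G : SimpleGraph (Fin n)) (h : HasLargeVertex k G)
    (hm : (2 * k - 1) * (k - 3) < 2 * G.edgeSet.ncard)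
    (hstar : 2 * (G.edgeSet.ncard : ℚ) / (2 * (k : ℚ) - 1) ≤
      ((G.edgeSet.ncard / (k - 1) : ℕ) : ℚ)) : HasPartition k G := by
  obtain ⟨T, h1, h2⟩ := thr k G.edgeSet.ncard (by omega)
  apply has_of_fine h2
  obtain ⟨v, hv⟩ := h
  rw [h2, deg_eq] at hv
  rw [h2] at hstar
  have hT : k - 3 < T := by
    by_contra hcon
    push Not at hcon
    have h3 := (h2 (k - 3)).mpr hcon
    have hk' : (0 : ℚ) < 2 * (k : ℚ) - 1 := by
      have : (3 : ℚ) ≤ k := by exact_mod_cast hk
      linarith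
    rw [div_le_iff₀ hk'] at h3
    have h4 : ((2 * k - 1 : ℕ) : ℚ) = 2 * (k : ℚ) - 1 := by
      rw [Nat.cast_sub (by omega)]
      push_cast
      ring
    rw [← h4] at h3
    have h5 : 2 * G.edgeSet.ncard ≤ (k - 3) * (2 * k - 1) := by exact_mod_cast h3
    rw [mul_comm (k - 3)] at h5
    omega
  refine fine_big2 Y448.PM.t_ID Y921.PM.t_PRIV hk (ed_diag G) (by omega) (by omega) ?_ ⟨v, hv⟩
  rw [ed_card]
  calc (k - 1) * T ≤ (k - 1) * (G.edgeSet.ncard / (k - 1)) := Nat.mul_le_mul_left _ hstar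
    _ ≤ G.edgeSet.ncard := Nat.mul_div_le _ _

/-- (1) For every `k ≥ 3` and every `m > (2k-1)(k-3)/2`: all graphs with `m` edges have a partition
into `k` classes each meeting at least `2m/(2k-1)` edges if and only if `⌊m/(k-1)⌋ ≥ 2m/(2k-1)`
(the condition for the star with `m` edges).
(2) For every `k ≥ 3` the largest number of edges of a graph without a partition into `k`
classes each meeting at least `2m/(2k-1)` of its `m` edges is `2k(k-3) + 3 = 2k² - 6k + 3`.
(3) For every `k ≥ 3` every graph without such a partition (whatever its number of edges) has a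
vertex of degree at least `2m/(2k-1)`. -/
theorem result :
    (∀ k m : ℕ, 3 ≤ k → (2 * k - 1) * (k - 3) < 2 * m →
      ((∀ (n : ℕ) (G : SimpleGraph (Fin n)), G.edgeSet.ncard = m → HasPartition k G) ↔
        2 * (m : ℚ) / (2 * (k : ℚ) - 1) ≤ ((m / (k - 1) : ℕ) : ℚ))) ∧
    (∀ k : ℕ, 3 ≤ k → IsGreatest {m : ℕ | ∃ (n : ℕ) (G : SimpleGraph (Fin n)),
      G.edgeSet.ncard = m ∧ ¬ HasPartition k G} (2 * k * (k - 3) + 3)) ∧
    (∀ k : ℕ, 3 ≤ k → ∀ (n : ℕ) (G : SimpleGraph (Fin n)),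
      ¬ HasPartition k G → HasLargeVertex k G) := by
  refine ⟨fun k m hk hm => ⟨fun hall => ?_, fun hst n G hG => ?_⟩, fun k hk => ⟨?_, ?_⟩, ?_⟩
  · obtain ⟨c, hc⟩ := hall (m + 1) (StarG.star m) (StarG.star_card m)
    obtain ⟨i, hi⟩ := star_bad m k (by omega) c
    refine le_trans ?_ (Nat.cast_le.mpr hi)
    have h1 := hc i
    rw [StarG.star_card] at h1
    exact h1
  · subst hG
    by_cases hL : HasLargeVertex k G
    · exact big2 hk G hL hm hst
    · exact small hk G hL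
  · obtain ⟨n, G, -, h1, h2⟩ := StarG.starg k hk
    refine ⟨n, G, h1, ?_⟩
    rintro ⟨c, hc⟩
    obtain ⟨i, hi⟩ := h2 c
    exact absurd (hc i) (not_le.mpr hi)
  · rintro m ⟨n, G, rfl, hG⟩
    by_contra hcon
    push Not at hcon
    by_cases hL : HasLargeVertex k G
    · exact hG (big hk G hL hcon)
    · exact hG (small hk G hL)
  · intro k hk n G hG
    by_contra hL
    exact hG (small hk G hL)

end Pool.Agent.Results.MP_f151b7_co.ExactThreshold
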