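import Pool.Agent.Y660.JP.Ex

/-!
# Partitions of graphs into `k` classes each meeting many edges: the sharp constant

The conjectured bound `2m/(2k-1)` is false for every `k ≥ 3`, even up to a constant factor: the
best constant under the assumption `m ≥ k(k-1)/2` is `2/3` of the conjectured one. From
`m ≥ (k-1)^2` on the bound `m/k` holds. For `u ≤ (k-2)/2` the exact number of edges which forces
a partition with all classes meeting more than `u` edges is determined.
-/

set_option autoImplicit false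

namespace Pool.Agent.Results.MP_f151b7_co.SharpConstant

open Finset Pool.Agent.Y660.JP

/-- `met G c i` is the number of edges of `G` which are met by the class `{v | c v = i}` of the
partition of the vertex set given by `c : V → Fin k`. -/
noncomputable def met {V : Type} (G : SimpleGraph V) {k : ℕ} (c : V → Fin k) (i : Fin k) : ℕ :=
  {e ∈ G.edgeSet | ∃ v ∈ e, c v = i}.ncard

lemma met_eq {V : Type} [Fintype V] (G : SimpleGraph V) {k : ℕ} (c : V → Fin k) (i : Fin k) :
    met G c i = meets G (univ.filter fun v => c v = i) := by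
  unfold met meets
  congr 1
  ext e
  simp

lemma pos_part {V : Type} [Fintype V] (G : SimpleGraph V) (k u : ℕ) (hk : 1 ≤ k)
    (hm : ∀ t : ℤ, 0 ≤ t → t ≤ (k : ℤ) - 1 → t * (t - 1) +
      2 * ((k : ℤ) - t - 1) * (u + min t u) + 2 * u < 2 * (G.edgeSet.ncard : ℤ)) :
    ∃ c : V → Fin k, ∀ i, u < met G c i := by
  classical
  obtain ⟨c, hc⟩ := main G k u hk fun t ht => by
    apply hm t (by positivity)
    have : t + 1 ≤ k := ht
    have : (t : ℤ) + 1 ≤ k := by exact_mod_cast this
    linarith
  exact ⟨c, fun i => by rw [met_eq]; exact hc i⟩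

/-- **(1)** (the correct constant) For every `k ≥ 1` every finite graph with `m ≥ k(k-1)/2` edges
has a partition of its vertex set into `k` classes each of which meets at least `2m/(3k)` edges.

**(2)** (sharpness) For every `k ≥ 3` there is a graph with `m ≥ k(k-1)/2` edges such that in
every partition into `k` classes some class meets at most `(k+2)/3` edges. Consequently for every
`lam > 2/3` and all large `k` there is a graph with `m ≥ k(k-1)/2` edges such that in every
partition into `k` classes some class meets fewer than `lam * 2m/(2k-1)` edges.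

**(3)** (larger graphs) For `m ≥ (k-1)^2` there is a partition into `k` classes each of which
meets at least `m/k` edges.

**(4)** (exact threshold) For `2u + 2 ≤ k` let `M` be the larger one of the numbers
`C(u,2) + u(2(k-u)-1)` and `C(k-1,2) + u`. Every finite graph with more than `M` edges has a
partition into `k` classes each of which meets more than `u` edges, and some graph with exactly
`M` edges has no such partition.

**(5)** (Q1: no) For every `k ≥ 3` there is a graph with `m = 2k(k-3)+3 ≥ k(k-1)/2` edges such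
that in every partition into `k` classes some class meets fewer than `2m/(2k-1)` edges. -/
theorem result :
    (∀ k : ℕ, 1 ≤ k → ∀ (V : Type) [Finite V] (G : SimpleGraph V),
      k.choose 2 ≤ G.edgeSet.ncard →
      ∃ c : V → Fin k, ∀ i, 2 * (G.edgeSet.ncard : ℚ) / (3 * (k : ℚ)) ≤ (met G c i : ℚ)) ∧
    (∀ k : ℕ, 3 ≤ k → ∃ (V : Type) (_ : Finite V) (G : SimpleGraph V),
      k.choose 2 ≤ G.edgeSet.ncard ∧ ∀ c : V → Fin k, ∃ i, met G c i ≤ (k + 2) / 3) ∧
    (∀ lam : ℝ, 2 / 3 < lam → ∃ k₀ : ℕ, ∀ k : ℕ, k₀ ≤ k →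
      ∃ (V : Type) (_ : Finite V) (G : SimpleGraph V), k.choose 2 ≤ G.edgeSet.ncard ∧
        ∀ c : V → Fin k, ∃ i,
          (met G c i : ℝ) < lam * (2 * (G.edgeSet.ncard : ℝ) / (2 * (k : ℝ) - 1))) ∧
    (∀ k : ℕ, 1 ≤ k → ∀ (V : Type) [Finite V] (G : SimpleGraph V),
      (k - 1) ^ 2 ≤ G.edgeSet.ncard →
      ∃ c : V → Fin k, ∀ i, (G.edgeSet.ncard : ℚ) / (k : ℚ) ≤ (met G c i : ℚ)) ∧
    (∀ k u M : ℕ, 2 * u + 2 ≤ k →
      M = max (u.choose 2 + u * (2 * (k - u) - 1)) ((k - 1).choose 2 + u) →
      (∀ (V : Type) [Finite V] (G : SimpleGraph V), M < G.edgeSet.ncard →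
        ∃ c : V → Fin k, ∀ i, u < met G c i) ∧
      ∃ (V : Type) (_ : Finite V) (G : SimpleGraph V), G.edgeSet.ncard = M ∧
        ∀ c : V → Fin k, ∃ i, met G c i ≤ u) ∧
    (∀ k : ℕ, 3 ≤ k → ∃ (V : Type) (_ : Finite V) (G : SimpleGraph V),
      k.choose 2 ≤ G.edgeSet.ncard ∧ G.edgeSet.ncard = 2 * k * (k - 3) + 3 ∧
      ∀ c : V → Fin k, ∃ i,
        (met G c i : ℚ) < 2 * (G.edgeSet.ncard : ℚ) / (2 * (k : ℚ) - 1)) := by
  have hsplit : ∀ k : ℕ, 3 ≤ k → ∃ (V : Type) (_ : Finite V) (G : SimpleGraph V),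
      k.choose 2 ≤ G.edgeSet.ncard ∧ ∀ c : V → Fin k, ∃ i, met G c i ≤ (k + 2) / 3 := by
    intro k hk
    obtain ⟨t, ht⟩ : ∃ t, t = (k + 2) / 3 := ⟨_, rfl⟩
    have ht1 : k ≤ 3 * t := by omega
    have ht2 : 3 * t ≤ k + 2 := by omega
    have htk : t < k := by omega
    refine ⟨Fin t ⊕ Fin (2 * (k - t) - 1), inferInstance, ex t t (2 * (k - t) - 1), ?_, ?_⟩
    · have h1 := ex_edges t t (2 * (k - t) - 1) le_rfl
      have h2 := two_choose k
      obtain ⟨d, hd⟩ : ∃ d, k = t + d := ⟨k - t, by omega⟩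
      have hd1 : 1 ≤ d := by omega
      have e1 : 2 * (k - t) - 1 = 2 * d - 1 := by omega
      rw [e1] at h1 ⊢
      have e2 : ((2 * d - 1 : ℕ) : ℤ) = 2 * d - 1 := by push_cast [Nat.cast_sub (by omega : 1 ≤ 2 * d)]; ring
      rw [e2] at h1
      have h3 : (k : ℤ) = t + d := by exact_mod_cast hd
      have h4 : (k : ℤ) ≤ 3 * t := by exact_mod_cast ht1
      have h5 : 3 * (t : ℤ) ≤ k + 2 := by exact_mod_cast ht2
      have h6 : (k.choose 2 : ℤ) ≤ ((ex t t (2 * d - 1)).edgeSet.ncard : ℤ) := by
        have h7 : (k : ℤ) * (k - 1) ≤ t * ((t : ℤ) - 1) + 2 * (t * (2 * d - 1)) := by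
          have h8 : (d : ℤ) = k - t := by linarith
          rw [h8]
          obtain hc | hc | hc : (k : ℤ) = 3 * t ∨ (k : ℤ) = 3 * t - 1 ∨ (k : ℤ) = 3 * t - 2 := by
            omega
          · rw [hc]; nlinarith
          · rw [hc]
            have : (1 : ℤ) ≤ t := by omega
            nlinarith
          · rw [hc]
            have : (2 : ℤ) ≤ t := by omega
            nlinarith
        linarith
      exact_mod_cast h6
    · intro c
      obtain ⟨i, hi⟩ := ex_bad t t (2 * (k - t) - 1) k 1 le_rfl htk (by omega) c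
      refine ⟨i, ?_⟩
      rw [met_eq, ← ht]
      linarith
  refine ⟨?_, hsplit, ?_, ?_, ?_, ?_⟩
  · -- (1)
    intro k hk V _ G hG
    have := Fintype.ofFinite V
    have h2 := two_choose k
    have hk' : (0 : ℚ) < 3 * (k : ℚ) := by
      have : (1 : ℚ) ≤ k := by exact_mod_cast hk
      linarith
    rcases Nat.eq_zero_or_pos G.edgeSet.ncard with h0 | hpos
    · have : NeZero k := ⟨by omega⟩
      refine ⟨fun _ => 0, fun i => ?_⟩
      rw [h0]; simp
    · obtain ⟨u, hu⟩ : ∃ u, u = (2 * G.edgeSet.ncard - 1) / (3 * k) := ⟨_, rfl⟩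
      have h3 : 3 * k * u + 1 ≤ 2 * G.edgeSet.ncard := by
        have := Nat.mul_div_le (2 * G.edgeSet.ncard - 1) (3 * k)
        rw [← hu] at this
        omega
      have h4 : 2 * G.edgeSet.ncard ≤ 3 * k * (u + 1) := by
        have := Nat.lt_mul_div_succ (2 * G.edgeSet.ncard - 1) (show 0 < 3 * k by omega)
        rw [← hu] at this
        omega
      obtain ⟨c, hc⟩ := pos_part G k u hk fun t ht htk => by
        have h5 : (3 * (k : ℤ) * u + 1) ≤ 2 * (G.edgeSet.ncard : ℤ) := by exact_mod_cast h3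
        have h6 : (k : ℤ) * (k - 1) ≤ 2 * (G.edgeSet.ncard : ℤ) := by
          have : ((k.choose 2 : ℕ) : ℤ) ≤ G.edgeSet.ncard := by exact_mod_cast hG
          linarith
        exact arith_half k u _ t (by positivity) h5 h6 ht htk
      refine ⟨c, fun i => ?_⟩
      rw [div_le_iff₀ hk']
      have h7 : u + 1 ≤ met G c i := hc i
      have h8 : 3 * k * (u + 1) ≤ 3 * k * met G c i := Nat.mul_le_mul_left _ h7
      have h9 : 2 * G.edgeSet.ncard ≤ met G c i * (3 * k) := by
        calc _ ≤ 3 * k * (u + 1) := h4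
          _ ≤ 3 * k * met G c i := h8
          _ = _ := by ring
      exact_mod_cast h9
  · -- (2), second part
    intro lam hlam
    obtain ⟨k₀, hk₀⟩ := exists_nat_gt ((5 + (3 * lam - 2)) / (3 * lam - 2))
    refine ⟨k₀ + 3, fun k hk => ?_⟩
    obtain ⟨V, hV, G, hG, hc⟩ := hsplit k (by omega)
    refine ⟨V, hV, G, hG, fun c => ?_⟩
    obtain ⟨i, hi⟩ := hc c
    refine ⟨i, ?_⟩
    have hδ : 0 < 3 * lam - 2 := by linarith
    have h1 : (5 + (3 * lam - 2)) < k₀ * (3 * lam - 2) := by
      rwa [div_lt_iff₀ hδ] at hk₀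
    have h2 : (k₀ : ℝ) + 3 ≤ k := by exact_mod_cast hk
    have h3 : 3 * (met G c i : ℝ) ≤ k + 2 := by
      have : 3 * met G c i ≤ k + 2 := by omega
      exact_mod_cast this
    have h4 : (k : ℝ) * (k - 1) ≤ 2 * (G.edgeSet.ncard : ℝ) := by
      have h5 := two_choose k
      have h6 : ((k.choose 2 : ℕ) : ℤ) ≤ G.edgeSet.ncard := by exact_mod_cast hG
      have h7 : (k : ℤ) * (k - 1) ≤ 2 * (G.edgeSet.ncard : ℤ) := by linarith
      exact_mod_cast h7
    have h0 : (0 : ℝ) ≤ k₀ := by positivity
    have hden : (0 : ℝ) < 2 * (k : ℝ) - 1 := by linarith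
    rw [← mul_div_assoc, lt_div_iff₀ hden]
    have h8 : (k + 2) * (2 * (k : ℝ) - 1) < 3 * lam * (k * (k - 1)) := by
      have h9 : (5 + (3 * lam - 2)) < k * (3 * lam - 2) := by nlinarith
      have h10 : 0 < (k : ℝ) := by linarith
      nlinarith
    have h11 : 3 * lam * (k * ((k : ℝ) - 1)) ≤ 3 * lam * (2 * (G.edgeSet.ncard : ℝ)) :=
      mul_le_mul_of_nonneg_left h4 (by linarith)
    have h12 : 3 * (met G c i : ℝ) * (2 * (k : ℝ) - 1) ≤ (k + 2) * (2 * (k : ℝ) - 1) :=
      mul_le_mul_of_nonneg_right h3 hden.le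
    linarith
  · -- (3)
    intro k hk V _ G hG
    have := Fintype.ofFinite V
    have hk' : (0 : ℚ) < (k : ℚ) := by
      have : (1 : ℚ) ≤ k := by exact_mod_cast hk
      linarith
    rcases Nat.eq_zero_or_pos G.edgeSet.ncard with h0 | hpos
    · have : NeZero k := ⟨by omega⟩
      refine ⟨fun _ => 0, fun i => ?_⟩
      rw [h0]; simp
    · obtain ⟨u, hu⟩ : ∃ u, u = (G.edgeSet.ncard - 1) / k := ⟨_, rfl⟩
      have h3 : k * u + 1 ≤ G.edgeSet.ncard := by
        have := Nat.mul_div_le (G.edgeSet.ncard - 1) k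
        rw [← hu] at this
        omega
      have h4 : G.edgeSet.ncard ≤ k * (u + 1) := by
        have := Nat.lt_mul_div_succ (G.edgeSet.ncard - 1) (show 0 < k by omega)
        rw [← hu] at this
        omega
      have hsq : ((k : ℤ) - 1) ^ 2 ≤ G.edgeSet.ncard := by
        have : (((k - 1) ^ 2 : ℕ) : ℤ) ≤ G.edgeSet.ncard := by exact_mod_cast hG
        push_cast [Nat.cast_sub hk] at this
        exact this
      have h4' : (G.edgeSet.ncard : ℤ) ≤ k * ((u : ℤ) + 1) := by exact_mod_cast h4
      have hku : (k : ℤ) - 2 ≤ u := by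
        by_contra hcon
        push Not at hcon
        have h5 : (u : ℤ) + 3 ≤ k := by linarith [Int.add_one_le_iff.mpr hcon]
        have h6 : (1 : ℤ) ≤ k := by exact_mod_cast hk
        nlinarith
      obtain ⟨c, hc⟩ := pos_part G k u hk fun t ht htk => by
        have h5 : ((k : ℤ) * u + 1) ≤ (G.edgeSet.ncard : ℤ) := by exact_mod_cast h3
        exact arith_sq k u _ t (by positivity) h5 hsq hku ht htk
      refine ⟨c, fun i => ?_⟩
      rw [div_le_iff₀ hk']
      have h7 : u + 1 ≤ met G c i := hc i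
      have h8 : k * (u + 1) ≤ k * met G c i := Nat.mul_le_mul_left _ h7
      have h9 : G.edgeSet.ncard ≤ met G c i * k := by
        calc _ ≤ k * (u + 1) := h4
          _ ≤ k * met G c i := h8
          _ = _ := by ring
      exact_mod_cast h9
  · -- (4)
    intro k u M hku hM
    obtain ⟨d, hd⟩ : ∃ d, k = u + d := ⟨k - u, by omega⟩
    have e1 : 2 * (k - u) - 1 = 2 * d - 1 := by omega
    have e2 : ((2 * d - 1 : ℕ) : ℤ) = 2 * d - 1 := by
      push_cast [Nat.cast_sub (by omega : 1 ≤ 2 * d)]; ring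
    have e3 : ((k - 1 : ℕ) : ℤ) = k - 1 := by
      push_cast [Nat.cast_sub (by omega : 1 ≤ k)]; ring
    have hd' : (k : ℤ) = u + d := by exact_mod_cast hd
    have c1 := two_choose u
    have c2 := two_choose (k - 1)
    rw [e3] at c2
    have hku' : 2 * (u : ℤ) + 2 ≤ k := by exact_mod_cast hku
    rw [e1] at hM
    constructor
    · intro V _ G hG
      have := Fintype.ofFinite V
      have g1 : u.choose 2 + u * (2 * d - 1) < G.edgeSet.ncard :=
        lt_of_le_of_lt (le_max_left _ _) (hM ▸ hG)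
      have g2 : (k - 1).choose 2 + u < G.edgeSet.ncard :=
        lt_of_le_of_lt (le_max_right _ _) (hM ▸ hG)
      have g1' : ((u.choose 2 : ℕ) : ℤ) + u * (2 * d - 1) < G.edgeSet.ncard := by
        have : ((u.choose 2 + u * (2 * d - 1) : ℕ) : ℤ) < G.edgeSet.ncard := by exact_mod_cast g1
        rw [Nat.cast_add, Nat.cast_mul, e2] at this
        exact this
      have g2' : (((k - 1).choose 2 : ℕ) : ℤ) + u < G.edgeSet.ncard := by exact_mod_cast g2
      apply pos_part G k u (by omega)
      intro t ht htk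
      apply arith_thr k u _ t (by positivity) hku' ?_ ?_ ht htk
      · have : (d : ℤ) = k - u := by linarith
        rw [this] at g1'
        nlinarith
      · nlinarith
    · rcases le_total (u.choose 2 + u * (2 * d - 1)) ((k - 1).choose 2 + u) with h | h
      · rw [max_eq_right h] at hM
        refine ⟨Fin (k - 1) ⊕ Fin u, inferInstance, ex (k - 1) 1 u, ?_, ?_⟩
        · have h1 := ex_edges (k - 1) 1 u (by omega)
          rw [e3] at h1
          have : (((ex (k - 1) 1 u).edgeSet.ncard : ℕ) : ℤ) = ((k - 1).choose 2 + u : ℕ) := by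
            push_cast
            push_cast at h1
            linarith
          rw [hM]
          exact_mod_cast this
        · intro c
          obtain ⟨i, hi⟩ := ex_bad (k - 1) 1 u k u (by omega) (by omega)
            (by
              have : k - (k - 1) = 1 := by omega
              rw [this]; omega) c
          exact ⟨i, by rw [met_eq]; linarith⟩
      · rw [max_eq_left h] at hM
        refine ⟨Fin u ⊕ Fin (2 * d - 1), inferInstance, ex u u (2 * d - 1), ?_, ?_⟩
        · have h1 := ex_edges u u (2 * d - 1) le_rfl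
          have : (((ex u u (2 * d - 1)).edgeSet.ncard : ℕ) : ℤ) =
              (u.choose 2 + u * (2 * d - 1) : ℕ) := by
            rw [Nat.cast_add, Nat.cast_mul]
            linarith
          rw [hM]
          exact_mod_cast this
        · intro c
          obtain ⟨i, hi⟩ := ex_bad u u (2 * d - 1) k 1 le_rfl (by omega) (by omega) c
          exact ⟨i, by rw [met_eq]; linarith⟩
  · -- (5)
    intro k hk
    obtain ⟨j, rfl⟩ : ∃ j, k = j + 3 := ⟨k - 3, by omega⟩
    have he := ex_edges 1 1 (2 * j * j + 6 * j + 3) le_rfl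
    have he' : (ex 1 1 (2 * j * j + 6 * j + 3)).edgeSet.ncard = 2 * j * j + 6 * j + 3 := by
      have : (((ex 1 1 (2 * j * j + 6 * j + 3)).edgeSet.ncard : ℕ) : ℤ) =
          ((2 * j * j + 6 * j + 3 : ℕ) : ℤ) := by
        push_cast at he ⊢
        linarith
      exact_mod_cast this
    refine ⟨Fin 1 ⊕ Fin (2 * j * j + 6 * j + 3), inferInstance,
      ex 1 1 (2 * j * j + 6 * j + 3), ?_, ?_, ?_⟩
    · rw [he']
      have h2 := two_choose (j + 3)
      have : (((j + 3).choose 2 : ℕ) : ℤ) ≤ ((2 * j * j + 6 * j + 3 : ℕ) : ℤ) := by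
        push_cast at h2 ⊢
        nlinarith
      exact_mod_cast this
    · rw [he']
      have h : j + 3 - 3 = j := by omega
      rw [h]; ring
    · intro c
      obtain ⟨i, hi⟩ := ex_bad 1 1 (2 * j * j + 6 * j + 3) (j + 3) (2 * j + 1) le_rfl (by omega)
        (by
          have : j + 3 - 1 = j + 2 := by omega
          rw [this]; ring_nf; omega) c
      refine ⟨i, ?_⟩
      rw [he', met_eq]
      have hpos : (0 : ℚ) < 2 * ((j + 3 : ℕ) : ℚ) - 1 := by
        push_cast; linarith [(Nat.cast_nonneg j : (0 : ℚ) ≤ (j : ℚ))]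
      rw [lt_div_iff₀ hpos]
      have hi' : (meets (ex 1 1 (2 * j * j + 6 * j + 3))
          (univ.filter fun v => c v = i) : ℚ) ≤ 2 * j + 1 := by
        have : meets (ex 1 1 (2 * j * j + 6 * j + 3))
          (univ.filter fun v => c v = i) ≤ 2 * j + 1 := by simpa using hi
        exact_mod_cast this
      calc _ ≤ (2 * (j : ℚ) + 1) * (2 * ((j + 3 : ℕ) : ℚ) - 1) :=
            mul_le_mul_of_nonneg_right hi' hpos.le
        _ < _ := by
          push_cast
          nlinarith [(Nat.cast_nonneg j : (0 : ℚ) ≤ (j : ℚ))]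

end Pool.Agent.Results.MP_f151b7_co.SharpConstant
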